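import Pool.Agent.E8helper55.UN.Main

set_option autoImplicit false

namespace Pool.Agent.E8helper55.UN

open Finset Module

variable {n k : ℕ}

/-- the coordinates in the block `i` -/
def blk (β : Fin n → Fin k) (i : Fin k) : Finset (Fin n) := univ.filter (fun j => β j = i)

/-- the weight of `x` in the block `i` -/
def bw (β : Fin n → Fin k) (x : V n) (i : Fin k) : ℕ :=
  (univ.filter (fun j => β j = i ∧ x j = 1)).card

lemma bw_le (β : Fin n → Fin k) (x : V n) (i : Fin k) : bw β x i ≤ (blk β i).card := by
  unfold bw blk
  refine card_le_card fun j hj => ?_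
  rw [mem_filter] at hj ⊢
  exact ⟨hj.1, hj.2.1⟩

lemma split (β : Fin n → Fin k) (u z : V n) (h0 : ∀ i, Even (bw β z i))
    (h1 : ∀ i, bw β z i ≤ 2 * bw β u i) (h2 : ∀ i, bw β z i + 2 * bw β u i ≤ 2 * (blk β i).card) :
    ∃ u' : V n, (∀ i, bw β u' i = bw β u i) ∧ ∀ i, bw β (u' + z) i = bw β u i := by
  classical
  set Z : Fin k → Finset (Fin n) := fun i => univ.filter (fun j => β j = i ∧ z j = 1) with hZ
  set N : Fin k → Finset (Fin n) := fun i => univ.filter (fun j => β j = i ∧ z j = 0) with hN
  have hZc : ∀ i, (Z i).card = bw β z i := fun i => rfl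
  have hNc : ∀ i, (N i).card + bw β z i = (blk β i).card := by
    intro i
    rw [← hZc, ← card_union_of_disjoint]
    · congr 1
      ext j
      rw [mem_union, hN, hZ, mem_filter, mem_filter, blk, mem_filter]
      rcases z2 (z j) with h | h
      · simp [h]
      · simp [h]
    · rw [Finset.disjoint_left]
      intro j hj hj'
      have e1 := (mem_filter.1 hj).2.2
      have e2 := (mem_filter.1 hj').2.2
      rw [e1] at e2
      exact absurd e2 (by decide)
  have hP : ∀ i, ∃ P ⊆ Z i, P.card = bw β z i / 2 := fun i =>
    exists_subset_card_eq (by rw [hZc]; omega)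
  have hQ : ∀ i, ∃ Q ⊆ N i, Q.card = bw β u i - bw β z i / 2 := fun i =>
    exists_subset_card_eq (by
      have e1 := hNc i
      have e2 := h1 i
      have e3 := h2 i
      obtain ⟨c, hc⟩ := h0 i
      omega)
  choose P hPs hPc using hP
  choose Q hQs hQc using hQ
  have hβP : ∀ i j, j ∈ P i → β j = i ∧ z j = 1 := fun i j hj => (mem_filter.1 (hPs i hj)).2
  have hβQ : ∀ i j, j ∈ Q i → β j = i ∧ z j = 0 := fun i j hj => (mem_filter.1 (hQs i hj)).2
  set u' : V n := fun j => if j ∈ P (β j) ∪ Q (β j) then 1 else 0 with hu'
  have hu1 : ∀ j, u' j = 1 ↔ j ∈ P (β j) ∪ Q (β j) := by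
    intro j
    simp only [hu']
    split_ifs with h
    · exact ⟨fun _ => h, fun _ => rfl⟩
    · exact ⟨fun h3 => absurd h3 (by decide), fun h3 => absurd h3 h⟩
  refine ⟨u', fun i => ?_, fun i => ?_⟩
  · have e1 : univ.filter (fun j => β j = i ∧ u' j = 1) = P i ∪ Q i := by
      ext j
      rw [mem_filter]
      constructor
      · rintro ⟨-, hj, h3⟩
        rw [hu1, hj] at h3
        exact h3
      · intro hj
        have hb : β j = i := by
          rcases mem_union.1 hj with h3 | h3
          · exact (hβP i j h3).1
          · exact (hβQ i j h3).1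
        refine ⟨mem_univ _, hb, ?_⟩
        rw [hu1, hb]
        exact hj
    unfold bw
    rw [e1, card_union_of_disjoint]
    · rw [hPc, hQc]
      have := h1 i
      unfold bw at this ⊢
      omega
    · rw [Finset.disjoint_left]
      intro j hj hj'
      have e2 := (hβP i j hj).2
      rw [(hβQ i j hj').2] at e2
      exact absurd e2 (by decide)
  · have e1 : univ.filter (fun j => β j = i ∧ (u' + z) j = 1) = (Z i \ P i) ∪ Q i := by
      ext j
      rw [mem_filter, mem_union, mem_sdiff, hZ, mem_filter]
      simp only [mem_univ, true_and]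
      by_cases hb : β j = i
      · have hP' : j ∈ P i → z j = 1 := fun h => (hβP i j h).2
        have hQ' : j ∈ Q i → z j = 0 := fun h => (hβQ i j h).2
        have hv : u' j = if j ∈ P i ∪ Q i then 1 else 0 := by simp only [hu', hb]
        rw [Pi.add_apply, hv]
        rcases z2 (z j) with h | h
        · rw [h]
          have hnP : j ∉ P i := fun h3 => by rw [hP' h3] at h; exact absurd h (by decide)
          by_cases hq : j ∈ Q i
          · simp [hb, hq]
          · simp [hb, hq, hnP]
        · rw [h]
          have hnQ : j ∉ Q i := fun h3 => by rw [hQ' h3] at h; exact absurd h (by decide)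
          by_cases hp : j ∈ P i
          · have : (1 : ZMod 2) + 1 = 0 := by decide
            simp [hb, hp, hnQ, this]
          · simp [hb, hp, hnQ]
      · have hnQ : j ∉ Q i := fun h3 => hb (hβQ i j h3).1
        simp [hb, hnQ]
    unfold bw
    rw [e1, card_union_of_disjoint, card_sdiff_of_subset (hPs i)]
    · rw [hPc, hQc, hZc]
      have e2 := h1 i
      obtain ⟨c, hc⟩ := h0 i
      unfold bw at e2 hc ⊢
      omega
    · rw [Finset.disjoint_left]
      intro j hj hj'
      have e2 := (mem_filter.1 (mem_sdiff.1 hj).1).2.2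
      rw [(hβQ i j hj').2] at e2
      exact absurd e2 (by decide)

/-- `|n_i - 2 w_i|` -/
def dv (β : Fin n → Fin k) (u : V n) (i : Fin k) : ℕ :=
  (blk β i).card - 2 * min (bw β u i) ((blk β i).card - bw β u i)

lemma space (β : Fin n → Fin k) (u : V n) :
    ∃ W : Submodule (ZMod 2) (V n), n ≤ finrank (ZMod 2) W + (∑ i, dv β u i + k) ∧
      ∀ z ∈ W, ∃ u' : V n, (∀ i, bw β u' i = bw β u i) ∧ ∀ i, bw β (u' + z) i = bw β u i := by
  classical
  have hD : ∀ i, ∃ D ⊆ blk β i, D.card = dv β u i := fun i =>
    exists_subset_card_eq (by unfold dv; omega)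
  choose D hDs hDc using hD
  set M : Finset (Fin n) := univ.biUnion D with hM
  have hMc : M.card ≤ ∑ i, dv β u i := by
    refine card_biUnion_le.trans (le_of_eq ?_)
    exact sum_congr rfl fun i _ => hDc i
  let f : V n →ₗ[ZMod 2] (M → ZMod 2) × (Fin k → ZMod 2) :=
    LinearMap.prod (LinearMap.pi (fun j => LinearMap.proj j.1))
      (LinearMap.pi (fun i => ∑ j ∈ blk β i, LinearMap.proj j))
  refine ⟨LinearMap.ker f, ?_, fun z hz => ?_⟩
  · have h1 := LinearMap.finrank_range_add_finrank_ker f
    have h2 : finrank (ZMod 2) (LinearMap.range f) ≤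
        finrank (ZMod 2) ((M → ZMod 2) × (Fin k → ZMod 2)) := Submodule.finrank_le _
    rw [Module.finrank_prod, Module.finrank_fintype_fun_eq_card, Fintype.card_coe,
      Module.finrank_fin_fun] at h2
    rw [Module.finrank_fin_fun] at h1
    omega
  · have hz' : f z = 0 := hz
    have hz1 : ∀ j ∈ M, z j = 0 := fun j hj => congrFun (congrArg Prod.fst hz') ⟨j, hj⟩
    have hz2 : ∀ i, ∑ j ∈ blk β i, z j = 0 := by
      intro i
      have h1 := congrFun (congrArg Prod.snd hz') i
      simpa [f] using h1
    have hcount : ∀ i, bw β z i = ((blk β i).filter (fun j => z j = 1)).card := by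
      intro i
      unfold bw blk
      rw [filter_filter]
    have hev : ∀ i, Even (bw β z i) := by
      intro i
      have h1 : ∑ j ∈ blk β i, z j = (bw β z i : ZMod 2) := by
        rw [hcount, ← sum_boole]
        refine sum_congr rfl fun j _ => ?_
        rcases z2 (z j) with h | h
        · rw [h]; simp
        · rw [h]; simp
      rw [hz2] at h1
      exact (ZMod.natCast_eq_zero_iff_even).1 h1.symm
    have hle : ∀ i, bw β z i + dv β u i ≤ (blk β i).card := by
      intro i
      rw [hcount, ← hDc i, ← card_union_of_disjoint]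
      · refine card_le_card fun j hj => ?_
        rcases mem_union.1 hj with h | h
        · exact (mem_filter.1 h).1
        · exact hDs i h
      · rw [Finset.disjoint_left]
        intro j hj hj'
        have e1 := (mem_filter.1 hj).2
        rw [hz1 j (mem_biUnion.2 ⟨i, mem_univ _, hj'⟩)] at e1
        exact absurd e1 (by decide)
    refine split β u z hev (fun i => ?_) (fun i => ?_)
    · have e1 := hle i
      have e2 := bw_le β u i
      unfold dv at e1
      omega
    · have e1 := hle i
      have e2 := bw_le β u i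
      unfold dv at e1
      omega

end Pool.Agent.E8helper55.UN
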