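import Pool.Agent.E8helper55.UN.Block

set_option autoImplicit false

namespace Pool.Agent.E8helper55.UN

open Finset Module

variable {n k : ℕ}

/-- `min (w_i, n_i - w_i)` -/
def mu (β : Fin n → Fin k) (u : V n) (i : Fin k) : ℕ :=
  min (bw β u i) ((blk β i).card - bw β u i)

lemma peel (β : Fin n → Fin k) (z : V n) (c : Fin k → ℕ) (hc : ∀ i, c i ≤ bw β z i) :
    ∃ z' : V n, (∀ i, bw β z' i = c i) ∧ ∀ i, bw β (z + z') i + c i = bw β z i := by
  classical
  set Z : Fin k → Finset (Fin n) := fun i => univ.filter (fun j => β j = i ∧ z j = 1) with hZ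
  have hZc : ∀ i, (Z i).card = bw β z i := fun i => rfl
  have hP : ∀ i, ∃ P ⊆ Z i, P.card = c i := fun i => exists_subset_card_eq (by rw [hZc]; exact hc i)
  choose P hPs hPc using hP
  have hβP : ∀ i j, j ∈ P i → β j = i ∧ z j = 1 := fun i j hj => (mem_filter.1 (hPs i hj)).2
  set z' : V n := fun j => if j ∈ P (β j) then 1 else 0 with hz'
  have hv : ∀ i j, β j = i → z' j = if j ∈ P i then 1 else 0 := by
    intro i j hb
    simp only [hz', hb]
  refine ⟨z', fun i => ?_, fun i => ?_⟩
  · have e1 : univ.filter (fun j => β j = i ∧ z' j = 1) = P i := by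
      ext j
      rw [mem_filter]
      constructor
      · rintro ⟨-, hj, h3⟩
        rw [hv i j hj] at h3
        by_contra hcon
        rw [if_neg hcon] at h3
        exact absurd h3 (by decide)
      · intro hj
        refine ⟨mem_univ _, (hβP i j hj).1, ?_⟩
        rw [hv i j (hβP i j hj).1, if_pos hj]
    unfold bw
    rw [e1, hPc]
  · have e1 : univ.filter (fun j => β j = i ∧ (z + z') j = 1) = Z i \ P i := by
      ext j
      rw [mem_filter, mem_sdiff, hZ, mem_filter]
      simp only [mem_univ, true_and]
      by_cases hb : β j = i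
      · rw [Pi.add_apply, hv i j hb]
        by_cases hp : j ∈ P i
        · have h1 := (hβP i j hp).2
          have : (1 : ZMod 2) + 1 = 0 := by decide
          simp [hp, h1, this]
        · simp [hp, hb]
      · simp [hb]
    have e2 := card_sdiff_add_card_eq_card (hPs i)
    unfold bw
    rw [e1, ← hPc i]
    exact e2

lemma many (β : Fin n → Fin k) (u : V n) (p : ℕ) : ∀ z : V n, (∀ i, Even (bw β z i)) →
    (∀ i, bw β z i ≤ 2 * p * mu β u i) →
    ∃ l : List (V n), l.length = 2 * p ∧ (∀ a ∈ l, ∀ i, bw β a i = bw β u i) ∧ l.sum = z := by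
  classical
  induction p with
  | zero =>
    intro z _ hz
    refine ⟨[], rfl, by simp, ?_⟩
    rw [List.sum_nil]
    funext j
    have h1 := hz (β j)
    have h2 : bw β z (β j) = 0 := by omega
    unfold bw at h2
    rw [card_eq_zero, filter_eq_empty_iff] at h2
    have h3 := h2 (mem_univ j)
    rcases z2 (z j) with h | h
    · exact h.symm
    · exact absurd ⟨rfl, h⟩ h3
  | succ p ih =>
    intro z hev hz
    obtain ⟨z', h1, h2⟩ := peel β z (fun i => min (bw β z i) (2 * mu β u i))
      (fun i => min_le_left _ _)
    have hev' : ∀ i, Even (bw β z' i) := by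
      intro i
      rw [h1]
      rcases le_total (bw β z i) (2 * mu β u i) with h | h
      · simp only [min_eq_left h]; exact hev i
      · simp only [min_eq_right h]; exact even_two_mul _
    have hrest : ∀ i, Even (bw β (z + z') i) := by
      intro i
      have e1 := h2 i
      have e2 := hev' i
      rw [h1] at e2
      obtain ⟨a, ha⟩ := hev i
      obtain ⟨b, hb⟩ := e2
      refine ⟨a - b, ?_⟩
      omega
    obtain ⟨l, hl, hla, hls⟩ := ih (z + z') hrest (fun i => by
      have e1 := h2 i
      have e2 := hz i
      have e3 : 2 * (p + 1) * mu β u i = 2 * p * mu β u i + 2 * mu β u i := by ring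
      rw [e3] at e2
      rcases le_total (bw β z i) (2 * mu β u i) with h | h
      · rw [min_eq_left h] at e1; omega
      · rw [min_eq_right h] at e1; omega)
    obtain ⟨v, hv1, hv2⟩ := split β u z' hev' (fun i => by
      have e1 := h1 i
      have e2 : mu β u i ≤ bw β u i := min_le_left _ _
      have e3 : min (bw β z i) (2 * mu β u i) ≤ 2 * mu β u i := min_le_right _ _
      omega) (fun i => by
      have e1 := h1 i
      have e2 : mu β u i ≤ (blk β i).card - bw β u i := min_le_right _ _
      have e3 : min (bw β z i) (2 * mu β u i) ≤ 2 * mu β u i := min_le_right _ _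
      have e4 := bw_le β u i
      omega)
    refine ⟨v :: (v + z') :: l, ?_, ?_, ?_⟩
    · simp only [List.length_cons, hl]; ring
    · intro a ha
      rw [List.mem_cons, List.mem_cons] at ha
      rcases ha with rfl | rfl | ha
      · exact hv1
      · exact hv2
      · exact hla a ha
    · rw [List.sum_cons, List.sum_cons, hls]
      have : v + (v + z' + (z + z')) = (v + v) + (z' + z') + z := by abel
      rw [this, vadd_self, vadd_self, add_zero, zero_add]

lemma space2 (β : Fin n → Fin k) (c : Fin k → ℕ) (hc : ∀ i, c i ≤ (blk β i).card) :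
    ∃ W : Submodule (ZMod 2) (V n), n ≤ finrank (ZMod 2) W + (∑ i, c i + k) ∧
      ∀ z ∈ W, (∀ i, Even (bw β z i)) ∧ ∀ i, bw β z i + c i ≤ (blk β i).card := by
  classical
  have hD : ∀ i, ∃ D ⊆ blk β i, D.card = c i := fun i => exists_subset_card_eq (hc i)
  choose D hDs hDc using hD
  set M : Finset (Fin n) := univ.biUnion D with hM
  have hMc : M.card ≤ ∑ i, c i := by
    refine card_biUnion_le.trans (le_of_eq ?_)
    exact sum_congr rfl fun i _ => hDc i
  let f : V n →ₗ[ZMod 2] (M → ZMod 2) × (Fin k → ZMod 2) :=
    LinearMap.prod (LinearMap.pi (fun j => LinearMap.proj j.1))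
      (LinearMap.pi (fun i => ∑ j ∈ blk β i, LinearMap.proj j))
  refine ⟨LinearMap.ker f, ?_, fun z hz => ?_⟩
  · have h1 := LinearMap.finrank_range_add_finrank_ker f
    have h2 : finrank (ZMod 2) (LinearMap.range f) ≤
        finrank (ZMod 2) ((M → ZMod 2) × (Fin k → ZMod 2)) := Submodule.finrank_le _
    rw [Module.finrank_prod, Module.finrank_fintype_fun_eq_card, Fintype.card_coe,
      Module.finrank_fin_fun] at h2
    rw [Module.finrank_fin_fun] at h1
    omega
  · have hz' : f z = 0 := hz
    have hz1 : ∀ j ∈ M, z j = 0 := fun j hj => congrFun (congrArg Prod.fst hz') ⟨j, hj⟩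
    have hz2 : ∀ i, ∑ j ∈ blk β i, z j = 0 := by
      intro i
      have h1 := congrFun (congrArg Prod.snd hz') i
      simpa [f] using h1
    have hcount : ∀ i, bw β z i = ((blk β i).filter (fun j => z j = 1)).card := by
      intro i
      unfold bw blk
      rw [filter_filter]
    refine ⟨fun i => ?_, fun i => ?_⟩
    · have h1 : ∑ j ∈ blk β i, z j = (bw β z i : ZMod 2) := by
        rw [hcount, ← sum_boole]
        refine sum_congr rfl fun j _ => ?_
        rcases z2 (z j) with h | h
        · rw [h]; simp
        · rw [h]; simp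
      rw [hz2] at h1
      exact (ZMod.natCast_eq_zero_iff_even).1 h1.symm
    · rw [hcount, ← hDc i, ← card_union_of_disjoint]
      · refine card_le_card fun j hj => ?_
        rcases mem_union.1 hj with h | h
        · exact (mem_filter.1 h).1
        · exact hDs i h
      · rw [Finset.disjoint_left]
        intro j hj hj'
        have e1 := (mem_filter.1 hj).2
        rw [hz1 j (mem_biUnion.2 ⟨i, mem_univ _, hj'⟩)] at e1
        exact absurd e1 (by decide)

end Pool.Agent.E8helper55.UN
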