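import Mathlib

set_option autoImplicit false

namespace Pool.Agent.E8helper55.UN

open Finset

/-- `F_2^n` -/
abbrev V (n : ℕ) := Fin n → ZMod 2

variable {n : ℕ}

/-- `A` is closed under replacing coordinates by `0`. -/
def Down (A : Finset (V n)) : Prop := ∀ x ∈ A, ∀ y : V n, (∀ i, y i = x i ∨ y i = 0) → y ∈ A

def sl (Y : Finset (V (n + 1))) (a : ZMod 2) : Finset (V n) :=
  univ.filter (fun x : V n => (Fin.cons a x : V (n + 1)) ∈ Y)

lemma mem_sl (Y : Finset (V (n + 1))) (a : ZMod 2) (x : V n) :
    x ∈ sl Y a ↔ (Fin.cons a x : V (n + 1)) ∈ Y := by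
  simp [sl]

lemma z2 (a : ZMod 2) : a = 0 ∨ a = 1 := by revert a; decide

lemma card_sl (Y : Finset (V (n + 1))) : Y.card = (sl Y 0).card + (sl Y 1).card := by
  classical
  have h1 : Y = (sl Y 0).image (fun x => (Fin.cons 0 x : V (n + 1))) ∪
      (sl Y 1).image (fun x => (Fin.cons 1 x : V (n + 1))) := by
    ext y
    rw [mem_union, mem_image, mem_image]
    constructor
    · intro hy
      have h2 : (Fin.cons (y 0) (Fin.tail y) : V (n + 1)) = y := Fin.cons_self_tail y
      rcases z2 (y 0) with h | h
      · left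
        refine ⟨Fin.tail y, ?_, ?_⟩
        · rw [mem_sl, ← h, h2]; exact hy
        · rw [← h, h2]
      · right
        refine ⟨Fin.tail y, ?_, ?_⟩
        · rw [mem_sl, ← h, h2]; exact hy
        · rw [← h, h2]
    · rintro (⟨x, hx, rfl⟩ | ⟨x, hx, rfl⟩)
      · exact (mem_sl _ _ _).1 hx
      · exact (mem_sl _ _ _).1 hx
  have hd : Disjoint ((sl Y 0).image (fun x => (Fin.cons 0 x : V (n + 1))))
      ((sl Y 1).image (fun x => (Fin.cons 1 x : V (n + 1)))) := by
    rw [Finset.disjoint_left]
    intro y h2 h3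
    obtain ⟨x, _, rfl⟩ := mem_image.1 h2
    obtain ⟨x', _, h4⟩ := mem_image.1 h3
    have h5 := congrFun h4 0
    rw [Fin.cons_zero, Fin.cons_zero] at h5
    exact absurd h5 (by decide)
  have hinj : ∀ a : ZMod 2, Function.Injective (fun x : V n => (Fin.cons a x : V (n + 1))) := by
    intro a x x' h
    funext i
    have h2 := congrFun h i.succ
    simp only [Fin.cons_succ] at h2
    exact h2
  conv_lhs => rw [h1]
  rw [card_union_of_disjoint hd, card_image_of_injective _ (hinj 0),
    card_image_of_injective _ (hinj 1)]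

lemma down_sl {A : Finset (V (n + 1))} (hA : Down A) (a : ZMod 2) : Down (sl A a) := by
  intro x hx y hy
  rw [mem_sl] at hx ⊢
  refine hA _ hx _ (fun i => ?_)
  refine Fin.cases ?_ (fun i => ?_) i
  · left; rw [Fin.cons_zero, Fin.cons_zero]
  · rw [Fin.cons_succ, Fin.cons_succ]; exact hy i

lemma sl_subset {A : Finset (V (n + 1))} (hA : Down A) : sl A 1 ⊆ sl A 0 := by
  intro x hx
  rw [mem_sl] at hx ⊢
  refine hA _ hx _ (fun i => ?_)
  refine Fin.cases ?_ (fun i => ?_) i
  · right; rw [Fin.cons_zero]
  · left; rw [Fin.cons_succ, Fin.cons_succ]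

theorem cover (r : ℕ) (hr : 0 < r) (t K : ℝ) (ht : 1 ≤ t) (hK : 0 < K)
    (h : ∀ g : ℝ, 0 ≤ g → g ≤ 1 → t * ((1 + g) / 2) ^ r ≤ K ∨ ((1 + g) / 2) ^ r ≤ K * g) :
    ∀ (n : ℕ) (A : Fin r → Finset (V n)), (∀ i, Down (A i)) → (∀ i, (A i).Nonempty) →
      ∃ a : Fin r → V n, (∀ i, a i ∈ A i) ∧
        t ^ (univ.filter (fun j : Fin n => ∀ i, a i j = 0)).card * ∏ i, ((A i).card : ℝ) ≤
          K ^ n * (2 ^ n) ^ r := by
  classical
  have ht0 : 0 < t := by linarith
  intro n
  induction n with
  | zero =>
    intro A _ hne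
    choose a ha using hne
    refine ⟨a, ha, ?_⟩
    have h1 : ∀ i, ((A i).card : ℝ) ≤ 1 := by
      intro i
      have : (A i).card ≤ Fintype.card (V 0) := card_le_univ _
      have h2 : Fintype.card (V 0) = 1 := by simp
      rw [h2] at this
      exact_mod_cast this
    have h2 : ∏ i, ((A i).card : ℝ) ≤ 1 :=
      prod_le_one (fun i _ => Nat.cast_nonneg _) (fun i _ => h1 i)
    simpa using h2
  | succ n ih =>
    intro A hD hne
    have hne0 : ∀ i, (sl (A i) 0).Nonempty := by
      intro i
      obtain ⟨x, hx⟩ := hne i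
      refine ⟨Fin.tail x, ?_⟩
      rw [mem_sl]
      refine hD i x hx _ (fun j => ?_)
      refine Fin.cases ?_ (fun j => ?_) j
      · right; rw [Fin.cons_zero]
      · left; rw [Fin.cons_succ]; rfl
    set p : Fin r → ℝ := fun i => ((sl (A i) 0).card : ℝ) with hp
    set q : Fin r → ℝ := fun i => ((sl (A i) 1).card : ℝ) with hq
    have hp0 : ∀ i, 0 < p i := fun i => by
      change (0 : ℝ) < ((sl (A i) 0).card : ℝ)
      exact Nat.cast_pos.2 (card_pos.2 (hne0 i))
    have hqp : ∀ i, q i ≤ p i := fun i => by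
      change ((sl (A i) 1).card : ℝ) ≤ ((sl (A i) 0).card : ℝ)
      exact Nat.cast_le.2 (card_le_card (sl_subset (hD i)))
    have hq0 : ∀ i, 0 ≤ q i := fun i => Nat.cast_nonneg _
    have hcard : ∀ i, ((A i).card : ℝ) = p i + q i := fun i => by
      change ((A i).card : ℝ) = ((sl (A i) 0).card : ℝ) + ((sl (A i) 1).card : ℝ)
      rw [← Nat.cast_add, ← card_sl]
    obtain ⟨i0, _, hi0⟩ := exists_max_image (univ : Finset (Fin r)) (fun i => q i / p i)
      ⟨⟨0, hr⟩, mem_univ _⟩
    set g : ℝ := q i0 / p i0 with hg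
    have hg0 : 0 ≤ g := div_nonneg (hq0 _) (hp0 _).le
    have hg1 : g ≤ 1 := (div_le_one (hp0 _)).2 (hqp _)
    have hle : ∀ i, ((A i).card : ℝ) ≤ p i * (1 + g) := by
      intro i
      have h1 := hi0 i (mem_univ _)
      rw [div_le_iff₀ (hp0 i)] at h1
      rw [hcard i]
      linarith
    have hprod : ∏ i, ((A i).card : ℝ) ≤ (∏ i, p i) * (1 + g) ^ r := by
      calc ∏ i, ((A i).card : ℝ) ≤ ∏ i, (p i * (1 + g)) :=
            prod_le_prod (fun i _ => Nat.cast_nonneg _) (fun i _ => hle i)
        _ = (∏ i, p i) * (1 + g) ^ r := by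
            rw [prod_mul_distrib, prod_const, card_univ, Fintype.card_fin]
    have hP : 0 < ∏ i, p i := prod_pos (fun i _ => hp0 i)
    have hpow : (1 + g) ^ r = 2 ^ r * ((1 + g) / 2) ^ r := by
      rw [← mul_pow]; congr 1; ring
    obtain ⟨P, hPP⟩ : ∃ P : ℝ, P = ∏ i, p i := ⟨_, rfl⟩
    rw [← hPP] at hP hprod
    rcases h g hg0 hg1 with h1 | h1
    · obtain ⟨a, ha, hb⟩ := ih (fun i => sl (A i) 0) (fun i => down_sl (hD i) 0) hne0
      refine ⟨fun i => Fin.cons 0 (a i), fun i => (mem_sl _ _ _).1 (ha i), ?_⟩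
      have hm : (univ.filter (fun j : Fin (n + 1) => ∀ i, (Fin.cons 0 (a i) : V (n + 1)) j = 0)).card
          = 1 + (univ.filter (fun j : Fin n => ∀ i, a i j = 0)).card := by
        rw [Fin.card_filter_univ_succ, if_pos (fun i => by rw [Fin.cons_zero])]
        simp only [Fin.cons_succ]
        rw [add_comm]
      rw [hm, pow_add, pow_one]
      set m := (univ.filter (fun j : Fin n => ∀ i, a i j = 0)).card with hmm
      have hb' : t ^ m * P ≤ K ^ n * (2 ^ n) ^ r := by rw [hPP]; exact hb
      calc t * t ^ m * ∏ i, ((A i).card : ℝ) ≤ t * t ^ m * (P * (1 + g) ^ r) :=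
            mul_le_mul_of_nonneg_left hprod (by positivity)
        _ = (t * ((1 + g) / 2) ^ r) * 2 ^ r * (t ^ m * P) := by rw [hpow]; ring
        _ ≤ K * 2 ^ r * (K ^ n * (2 ^ n) ^ r) := by
            apply mul_le_mul (mul_le_mul_of_nonneg_right h1 (by positivity)) hb' (by positivity)
              (by positivity)
        _ = K ^ (n + 1) * (2 ^ (n + 1)) ^ r := by
            rw [pow_succ, pow_succ, mul_pow]; ring
    · have hgpos : 0 < g := by
        by_contra hcon
        have h2 : g = 0 := le_antisymm (not_lt.1 hcon) hg0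
        rw [h2, mul_zero] at h1
        have h3 : (0 : ℝ) < ((1 + 0) / 2) ^ r := by positivity
        linarith
      have hqi : 0 < q i0 := by
        by_contra hcon
        have h2 : q i0 = 0 := le_antisymm (not_lt.1 hcon) (hq0 _)
        rw [hg, h2, zero_div] at hgpos
        exact lt_irrefl _ hgpos
      have hne1 : (sl (A i0) 1).Nonempty := by
        rw [← card_pos]
        exact Nat.cast_pos.1 (show (0 : ℝ) < ((sl (A i0) 1).card : ℝ) from hqi)
      obtain ⟨a, ha, hb⟩ := ih (Function.update (fun i => sl (A i) 0) i0 (sl (A i0) 1))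
        (fun i => by
          by_cases hi : i = i0
          · subst hi; rw [Function.update_self]; exact down_sl (hD _) 1
          · rw [Function.update_of_ne hi]; exact down_sl (hD _) 0)
        (fun i => by
          by_cases hi : i = i0
          · subst hi; rw [Function.update_self]; exact hne1
          · rw [Function.update_of_ne hi]; exact hne0 i)
      refine ⟨fun i => Fin.cons (if i = i0 then 1 else 0) (a i), fun i => ?_, ?_⟩
      · have h2 := ha i
        change (Fin.cons (if i = i0 then 1 else 0) (a i) : V (n + 1)) ∈ A i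
        by_cases hi : i = i0
        · subst hi
          rw [Function.update_self] at h2
          rw [if_pos rfl]
          exact (mem_sl _ _ _).1 h2
        · rw [Function.update_of_ne hi] at h2
          rw [if_neg hi]
          exact (mem_sl _ _ _).1 h2
      · have hm : (univ.filter (fun j : Fin (n + 1) =>
            ∀ i, (Fin.cons (if i = i0 then 1 else 0) (a i) : V (n + 1)) j = 0)).card
            = (univ.filter (fun j : Fin n => ∀ i, a i j = 0)).card := by
          rw [Fin.card_filter_univ_succ, if_neg]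
          · simp only [Fin.cons_succ]
          · intro h2
            have h3 := h2 i0
            rw [Fin.cons_zero, if_pos rfl] at h3
            exact absurd h3 (by decide)
        rw [hm]
        set m := (univ.filter (fun j : Fin n => ∀ i, a i j = 0)).card with hmm
        have hupd : ∏ i, ((Function.update (fun i => sl (A i) 0) i0 (sl (A i0) 1) i).card : ℝ) =
            P * g := by
          rw [hPP, ← mul_prod_erase univ _ (mem_univ i0), ← mul_prod_erase univ p (mem_univ i0),
            Function.update_self]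
          have h2 : ∏ i ∈ univ.erase i0,
              ((Function.update (fun i => sl (A i) 0) i0 (sl (A i0) 1) i).card : ℝ) =
              ∏ i ∈ univ.erase i0, p i :=
            prod_congr rfl fun i hi => by rw [Function.update_of_ne (ne_of_mem_erase hi)]
          rw [h2]
          have h3 : ((sl (A i0) 1).card : ℝ) = q i0 := rfl
          rw [h3, hg]
          have := (hp0 i0).ne'
          field_simp
        rw [hupd] at hb
        calc t ^ m * ∏ i, ((A i).card : ℝ) ≤ t ^ m * (P * (1 + g) ^ r) :=
              mul_le_mul_of_nonneg_left hprod (by positivity)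
          _ = t ^ m * P * 2 ^ r * ((1 + g) / 2) ^ r := by rw [hpow]; ring
          _ ≤ t ^ m * P * 2 ^ r * (K * g) :=
              mul_le_mul_of_nonneg_left h1 (by positivity)
          _ = K * 2 ^ r * (t ^ m * (P * g)) := by ring
          _ ≤ K * 2 ^ r * (K ^ n * (2 ^ n) ^ r) := mul_le_mul_of_nonneg_left hb (by positivity)
          _ = K ^ (n + 1) * (2 ^ (n + 1)) ^ r := by
              rw [pow_succ, pow_succ, mul_pow]; ring

end Pool.Agent.E8helper55.UN
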