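import Pool.Agent.E8helper55.UN.Cover

set_option autoImplicit false

namespace Pool.Agent.E8helper55.UN

open Finset Module

variable {n : ℕ}

/-- For some basis of the dual space and some vector `s`, the set `A` is closed under replacing
coordinates by those of `s`. -/
def Unate {n : ℕ} (A : Finset (V n)) : Prop :=
  ∃ (T : V n ≃ₗ[ZMod 2] V n) (s : V n),
    ∀ x ∈ A, ∀ y, (∀ i, T y i = T x i ∨ T y i = s i) → y ∈ A

lemma vadd_self (x : V n) : x + x = 0 := by
  funext i
  have : ∀ a : ZMod 2, a + a = 0 := by decide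
  exact this (x i)

/-- sums of elements below given elements of a down-set -/
lemma below (r : ℕ) (B : Finset (V n)) (hB : Down B) (a : Fin r → V n) (ha : ∀ i, a i ∈ B)
    (z : V n) (hz : ∀ j, (∀ i, a i j = 0) → z j = 0) :
    ∃ b : Fin r → V n, (∀ i, b i ∈ B) ∧ ∑ i, b i = z := by
  classical
  have hex : ∀ j : Fin n, ∃ o : Option (Fin r), (∀ i, o = some i → a i j = 1) ∧
      (o = none → z j = 0) := by
    intro j
    by_cases h : ∀ i, a i j = 0
    · exact ⟨none, fun i hi => by simp at hi, fun _ => hz j h⟩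
    · push Not at h
      obtain ⟨i, hi⟩ := h
      refine ⟨some i, fun i' hi' => ?_, fun h' => by simp at h'⟩
      rw [Option.some.injEq] at hi'
      subst hi'
      rcases z2 (a i j) with h2 | h2
      · exact absurd h2 hi
      · exact h2
  choose o ho1 ho2 using hex
  refine ⟨fun i j => if o j = some i then z j else 0, fun i => ?_, ?_⟩
  · refine hB (a i) (ha i) _ (fun j => ?_)
    change (if o j = some i then z j else 0) = a i j ∨ (if o j = some i then z j else 0) = 0
    by_cases h : o j = some i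
    · rw [if_pos h, ho1 j i h]
      rcases z2 (z j) with h2 | h2
      · right; exact h2
      · left; exact h2
    · right; rw [if_neg h]
  · funext j
    rw [Finset.sum_apply]
    rcases h : o j with _ | i0
    · rw [ho2 j h]
      exact sum_eq_zero fun i _ => by simp
    · rw [sum_eq_single i0]
      · rw [if_pos rfl]
      · intro i _ hi
        rw [if_neg]
        intro h2
        rw [Option.some.injEq] at h2
        exact hi h2.symm
      · intro h2
        exact absurd (mem_univ _) h2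

lemma finrank_zero_on (M : Finset (Fin n)) :
    ∃ W : Submodule (ZMod 2) (V n), n ≤ finrank (ZMod 2) W + M.card ∧
      ∀ w ∈ W, ∀ j ∈ M, w j = 0 := by
  classical
  let f : V n →ₗ[ZMod 2] (M → ZMod 2) := LinearMap.pi (fun j => LinearMap.proj j.1)
  refine ⟨LinearMap.ker f, ?_, ?_⟩
  · have h1 := LinearMap.finrank_range_add_finrank_ker f
    have h2 : finrank (ZMod 2) (LinearMap.range f) ≤ finrank (ZMod 2) (M → ZMod 2) :=
      Submodule.finrank_le _
    rw [Module.finrank_fintype_fun_eq_card, Fintype.card_coe] at h2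
    rw [Module.finrank_fin_fun] at h1
    omega
  · intro w hw j hj
    have h1 : f w = 0 := hw
    exact congrFun h1 ⟨j, hj⟩

theorem main (r : ℕ) (hr : 0 < r) (t K : ℝ) (ht : 1 ≤ t) (hK : 0 < K)
    (h : ∀ g : ℝ, 0 ≤ g → g ≤ 1 → t * ((1 + g) / 2) ^ r ≤ K ∨ ((1 + g) / 2) ^ r ≤ K * g)
    (A : Finset (V n)) (hA : A.Nonempty) (hU : Unate A) :
    ∃ (m : ℕ) (v : V n) (W : Submodule (ZMod 2) (V n)), n ≤ finrank (ZMod 2) W + m ∧ m ≤ n ∧
      t ^ m * (A.card : ℝ) ^ r ≤ K ^ n * (2 ^ n) ^ r ∧
      ∀ w ∈ W, ∃ a : Fin r → V n, (∀ i, a i ∈ A) ∧ ∑ i, a i = v + w := by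
  classical
  obtain ⟨T, s, hT⟩ := hU
  have hinj : Function.Injective (fun x : V n => T x + s) := fun x y hxy =>
    T.injective (add_right_cancel hxy)
  set B : Finset (V n) := A.image (fun x => T x + s) with hB
  have hBc : B.card = A.card := card_image_of_injective _ hinj
  have hBd : Down B := by
    intro x hx y hy
    obtain ⟨u, hu, rfl⟩ := mem_image.1 hx
    rw [hB, mem_image]
    refine ⟨T.symm (y + s), hT u hu _ (fun i => ?_), ?_⟩
    · rw [LinearEquiv.apply_symm_apply, Pi.add_apply]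
      rcases hy i with h1 | h1
      · left
        rw [h1, Pi.add_apply, add_assoc]
        have : s i + s i = 0 := congrFun (vadd_self s) i
        rw [this, add_zero]
      · right
        rw [h1, zero_add]
    · rw [LinearEquiv.apply_symm_apply, add_assoc, vadd_self, add_zero]
  obtain ⟨a, ha, hb⟩ := cover r hr t K ht hK h n (fun _ => B) (fun _ => hBd)
    (fun _ => hA.image _)
  rw [prod_const, card_univ, Fintype.card_fin, hBc] at hb
  set M : Finset (Fin n) := univ.filter (fun j : Fin n => ∀ i, a i j = 0) with hM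
  obtain ⟨W, hW, hWM⟩ := finrank_zero_on M
  refine ⟨M.card, T.symm (∑ _i : Fin r, s), W.map (T.symm : V n →ₗ[ZMod 2] V n), ?_, ?_, hb, ?_⟩
  · rw [LinearEquiv.finrank_map_eq]
    exact hW
  · exact (card_le_univ M).trans (le_of_eq (Fintype.card_fin n))
  · intro w hw
    obtain ⟨z, hz, rfl⟩ := Submodule.mem_map.1 hw
    obtain ⟨b, hb1, hb2⟩ := below r B hBd a ha z (fun j hj => hWM z hz j (by
      rw [hM, mem_filter]; exact ⟨mem_univ _, hj⟩))
    have hx : ∀ i, ∃ x ∈ A, T x + s = b i := fun i => mem_image.1 (hb1 i)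
    choose x hxA hxb using hx
    refine ⟨x, hxA, ?_⟩
    apply T.injective
    rw [map_sum, map_add]
    have h1 : ∀ i, T (x i) = s + b i := by
      intro i
      rw [← hxb i, add_comm (T (x i)) s, ← add_assoc, vadd_self, zero_add]
    rw [sum_congr rfl (fun i _ => h1 i), sum_add_distrib, hb2]
    congr 1
    · rw [LinearEquiv.apply_symm_apply]
    · change z = T (T.symm z)
      rw [LinearEquiv.apply_symm_apply]

/-- the condition for `K = 1` -/
lemma cond_one (r : ℕ) (g0 : ℝ) (h0 : 0 < g0) (h1 : g0 < 1) (h : ((1 + g0) / 2) ^ r ≤ g0) :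
    ∀ g : ℝ, 0 ≤ g → g ≤ 1 →
      (1 / g0) * ((1 + g) / 2) ^ r ≤ 1 ∨ ((1 + g) / 2) ^ r ≤ 1 * g := by
  intro g hg0 hg1
  rcases le_total g g0 with hle | hle
  · left
    have h2 : ((1 + g) / 2) ^ r ≤ ((1 + g0) / 2) ^ r :=
      pow_le_pow_left₀ (by linarith) (by linarith) r
    rw [one_div, inv_mul_le_iff₀ h0, mul_one]
    exact h2.trans h
  · right
    rw [one_mul]
    have hd : 0 < 1 - g0 := by linarith
    have hx1 : (1 + g0) / 2 ∈ Set.Ici (0 : ℝ) := by rw [Set.mem_Ici]; linarith
    have hx2 : (1 : ℝ) ∈ Set.Ici (0 : ℝ) := by rw [Set.mem_Ici]; norm_num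
    have ha : 0 ≤ (1 - g) / (1 - g0) := div_nonneg (by linarith) hd.le
    have hb : 0 ≤ (g - g0) / (1 - g0) := div_nonneg (by linarith) hd.le
    have hab : (1 - g) / (1 - g0) + (g - g0) / (1 - g0) = 1 := by
      rw [← add_div, div_eq_one_iff_eq hd.ne']; ring
    have hc := (convexOn_pow (𝕜 := ℝ) r).2 hx1 hx2 ha hb hab
    simp only [smul_eq_mul, one_pow, mul_one] at hc
    have e1 : (1 - g) / (1 - g0) * ((1 + g0) / 2) + (g - g0) / (1 - g0) = (1 + g) / 2 := by
      field_simp
      ring
    rw [e1] at hc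
    refine hc.trans ?_
    have h3 : (1 - g) / (1 - g0) * ((1 + g0) / 2) ^ r ≤ (1 - g) / (1 - g0) * g0 :=
      mul_le_mul_of_nonneg_left h (div_nonneg (by linarith) hd.le)
    have h4 : (1 - g) / (1 - g0) * g0 + (g - g0) / (1 - g0) = g := by
      field_simp
      ring
    linarith

/-- the condition for two summands -/
lemma cond_two (la : ℝ) (hla : 0 ≤ la) : ∀ g : ℝ, 0 ≤ g → g ≤ 1 →
    Real.exp la * ((1 + g) / 2) ^ 2 ≤ Real.cosh (la / 2) ^ 2 ∨
      ((1 + g) / 2) ^ 2 ≤ Real.cosh (la / 2) ^ 2 * g := by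
  intro g hg0 hg1
  have hK : Real.cosh (la / 2) ^ 2 = (2 + Real.exp la + Real.exp (-la)) / 4 := by
    rw [Real.cosh_eq]
    have e1 : Real.exp (la / 2) * Real.exp (la / 2) = Real.exp la := by
      rw [← Real.exp_add]; congr 1; ring
    have e2 : Real.exp (-(la / 2)) * Real.exp (-(la / 2)) = Real.exp (-la) := by
      rw [← Real.exp_add]; congr 1; ring
    have e3 : Real.exp (la / 2) * Real.exp (-(la / 2)) = 1 := by
      rw [← Real.exp_add]; simp
    rw [← e1, ← e2]
    linear_combination (1 / 2 : ℝ) * e3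
  rw [hK]
  have hu : 1 ≤ Real.exp la := Real.one_le_exp hla
  have huv : Real.exp la * Real.exp (-la) = 1 := by rw [← Real.exp_add]; simp
  set u := Real.exp la with hu'
  set w := Real.exp (-la) with hw'
  have hw0 : 0 < w := Real.exp_pos _
  rcases le_total g w with hle | hle
  · left
    have h1 : (1 + g) ^ 2 ≤ (1 + w) ^ 2 := pow_le_pow_left₀ (by linarith) (by linarith) 2
    have h2 : u * (1 + w) ^ 2 = u + 2 + w := by
      have : u * (1 + w) ^ 2 = u + 2 * (u * w) + w * (u * w) := by ring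
      rw [this, huv]; ring
    have h3 : u * (1 + g) ^ 2 ≤ u * (1 + w) ^ 2 := mul_le_mul_of_nonneg_left h1 (by linarith)
    have h4 : u * ((1 + g) / 2) ^ 2 = u * (1 + g) ^ 2 / 4 := by ring
    rw [h4]
    linarith
  · right
    have h1 : (u - g) * (g - w) ≥ 0 := mul_nonneg (by linarith) (by linarith)
    nlinarith

end Pool.Agent.E8helper55.UN
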